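import Pool.Agent.Lib.MP_aa9b81_an.Mg.G078

/-!
# The machine, part G0: rotations with an angle function
-/

open scoped ENNReal Topology
open Function

noncomputable section

namespace Pool.Agent.Lib.MP_aa9b81_an.Mc

open Cut Hs

variable {Γ I : Type} [Group Γ] [MulAction Γ I] [DecidableEq I]

omit [Group Γ] [MulAction Γ I] in
theorem Uu_pairf (K : Finset I) (φ : I → ℝ) :
    (K : Set I).Pairwise (Commute on fun i => Uu i (φ i)) :=
  fun i _ j _ _ => Units.ext (Ui_comm i j (φ i) (φ j))

omit [Group Γ] [MulAction Γ I] in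
/-- The rotation by the angle `φ i` at every site `i` of the finite set `K`. -/
def UKf (K : Finset I) (φ : I → ℝ) : (BL (Bs I))ˣ :=
  K.noncommProd (fun i => Uu i (φ i)) (Uu_pairf K φ)

omit [Group Γ] [MulAction Γ I] in
theorem UKf_empty (φ : I → ℝ) : UKf (∅ : Finset I) φ = 1 := by
  rw [UKf, Finset.noncommProd_empty]

omit [Group Γ] [MulAction Γ I] in
/-- PROOF: `Finset.noncommProd_insert_of_notMem`. Compare `Hs.UK_insert`. -/
theorem UKf_insert {i : I} {K : Finset I} (h : i ∉ K) (φ : I → ℝ) :
    UKf (insert i K) φ = Uu i (φ i) * UKf K φ := by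
  unfold UKf
  rw [Finset.noncommProd_insert_of_notMem _ _ _ _ h]

omit [Group Γ] [MulAction Γ I] in
/-- PROOF: `Finset.noncommProd_congr`, or induction on `K`. -/
theorem UKf_congr {K : Finset I} {φ φ' : I → ℝ} (h : ∀ i ∈ K, φ i = φ' i) :
    UKf K φ = UKf K φ' := by
  classical
  induction K using Finset.induction_on with
  | empty => rw [UKf_empty, UKf_empty]
  | insert i K hi ih =>
    rw [UKf_insert hi, UKf_insert hi, h i (Finset.mem_insert_self i K),
      ih fun j hj => h j (Finset.mem_insert_of_mem hj)]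

omit [Group Γ] [MulAction Γ I] in
private theorem G0_norm_mul_le {x y : BL (Bs I)} (hx : ‖x‖ ≤ 1) (hy : ‖y‖ ≤ 1) : ‖x * y‖ ≤ 1 :=
  (norm_mul_le _ _).trans (by
    have := mul_le_mul hx hy (norm_nonneg _) zero_le_one
    simpa using this)

omit [Group Γ] [MulAction Γ I] in
/-- PROOF: induction on `K` (`UKf_insert`), `norm_Ui_le`; the inverse of `Uu i φ` is `Ui i (-φ)`. -/
theorem norm_UKf_le (K : Finset I) (φ : I → ℝ) :
    ‖(UKf K φ : BL (Bs I))‖ ≤ 1 ∧ ‖((UKf K φ)⁻¹ : (BL (Bs I))ˣ).val‖ ≤ 1 := by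
  classical
  induction K using Finset.induction_on with
  | empty =>
    rw [UKf_empty, inv_one, Units.val_one]
    exact ⟨ContinuousLinearMap.norm_id_le, ContinuousLinearMap.norm_id_le⟩
  | insert i K hi ih =>
    rw [UKf_insert hi, mul_inv_rev, Units.val_mul, Units.val_mul]
    exact ⟨G0_norm_mul_le (norm_Ui_le i (φ i)) ih.1, G0_norm_mul_le ih.2 (norm_Ui_le i (-φ i))⟩

omit [Group Γ] [MulAction Γ I] in
/-- PROOF: induction on `K` (`UKf_insert`), `Commute.mul_left`; `Commute.units_inv_left`. -/
theorem UKf_comm {K : Finset I} {φ : I → ℝ} {X : BL (Bs I)}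
    (h : ∀ i ∈ K, Commute (Ui i (φ i)) X) :
    Commute (UKf K φ : BL (Bs I)) X ∧ Commute ((UKf K φ)⁻¹ : (BL (Bs I))ˣ).val X := by
  classical
  have h1 : Commute (UKf K φ : BL (Bs I)) X := by
    induction K using Finset.induction_on with
    | empty =>
      rw [UKf_empty, Units.val_one]
      exact Commute.one_left X
    | insert i K hi ih =>
      rw [UKf_insert hi, Units.val_mul]
      exact Commute.mul_left (h i (Finset.mem_insert_self i K))
        (ih fun j hj => h j (Finset.mem_insert_of_mem hj))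
  exact ⟨h1, Commute.units_inv_left h1⟩

omit [Group Γ] [MulAction Γ I] in
private theorem G0_union (K L : Finset I) (h : Disjoint K L) (φ : I → ℝ) :
    UKf (K ∪ L) φ = UKf K φ * UKf L φ := by
  classical
  induction K using Finset.induction_on with
  | empty => rw [Finset.empty_union, UKf_empty, one_mul]
  | insert i K hi ih =>
    have h1 : i ∉ L := fun hL =>
      (Finset.disjoint_left.1 h) (Finset.mem_insert_self i K) hL
    have h2 : Disjoint K L := Finset.disjoint_left.2 fun j hj hL =>
      (Finset.disjoint_left.1 h) (Finset.mem_insert_of_mem hj) hL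
    have h3 : i ∉ K ∪ L := fun hu => (Finset.mem_union.1 hu).elim hi h1
    have h4 : insert i K ∪ L = insert i (K ∪ L) := Finset.insert_union i K L
    rw [h4, UKf_insert h3, UKf_insert hi, ih h2, mul_assoc]

omit [Group Γ] [MulAction Γ I] in
/-- PROOF: `Finset.noncommProd_union_of_disjoint`, or induction on `K ∖ L`. -/
theorem UKf_sdiff {L K : Finset I} (h : L ⊆ K) (φ : I → ℝ) :
    UKf K φ = UKf (K \ L) φ * UKf L φ := by
  rw [← G0_union _ _ Finset.sdiff_disjoint, Finset.sdiff_union_of_subset h]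

end Pool.Agent.Lib.MP_aa9b81_an.Mc
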